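import Mathlib

/-!
# MP_cb3c8e_nt: no solution of `σ₂(n) = σ₂(n + 2)` has a prime among `n`, `n + 2`
-/

set_option autoImplicit false

namespace Pool.Agent.Results.MP_cb3c8e_nt.PrimeMember

/-- the sum of the squares of the divisors -/
def s2 (n : ℕ) : ℕ := ∑ d ∈ n.divisors, d ^ 2

lemma s2_prime {p : ℕ} (hp : p.Prime) : s2 p = 1 + p ^ 2 := by
  unfold s2
  rw [hp.divisors, Finset.sum_pair hp.one_lt.ne]
  norm_num

lemma s2_ge {n : ℕ} (hn : 2 ≤ n) : 1 + n ^ 2 ≤ s2 n := by
  unfold s2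
  have h : ({1, n} : Finset ℕ) ⊆ n.divisors := by
    intro d hd
    rw [Finset.mem_insert, Finset.mem_singleton] at hd
    rw [Nat.mem_divisors]
    rcases hd with rfl | rfl
    · exact ⟨one_dvd _, by omega⟩
    · exact ⟨dvd_rfl, by omega⟩
  calc 1 + n ^ 2 = ∑ d ∈ ({1, n} : Finset ℕ), d ^ 2 := by
        rw [Finset.sum_pair (by omega)]; norm_num
    _ ≤ _ := Finset.sum_le_sum_of_subset h

lemma s2_ge4 {p k : ℕ} (hp : 2 ≤ p) (hk : p < k) : 1 + p ^ 2 + k ^ 2 + (p * k) ^ 2 ≤ s2 (p * k) := by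
  unfold s2
  have hpk : k < p * k := by nlinarith
  have h : ({1, p, k, p * k} : Finset ℕ) ⊆ (p * k).divisors := by
    intro d hd
    simp only [Finset.mem_insert, Finset.mem_singleton] at hd
    rw [Nat.mem_divisors]
    rcases hd with rfl | rfl | rfl | rfl
    · exact ⟨one_dvd _, by omega⟩
    · exact ⟨dvd_mul_right _ _, by omega⟩
    · exact ⟨dvd_mul_left _ _, by omega⟩
    · exact ⟨dvd_rfl, by omega⟩
  calc 1 + p ^ 2 + k ^ 2 + (p * k) ^ 2 = ∑ d ∈ ({1, p, k, p * k} : Finset ℕ), d ^ 2 := by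
        rw [Finset.sum_insert, Finset.sum_insert, Finset.sum_insert, Finset.sum_singleton]
        · ring
        · rw [Finset.mem_singleton]; omega
        · simp only [Finset.mem_insert, Finset.mem_singleton]; omega
        · simp only [Finset.mem_insert, Finset.mem_singleton]; omega
    _ ≤ _ := Finset.sum_le_sum_of_subset h

lemma s2_two {p q : ℕ} (hp : p.Prime) (hq : q.Prime) (h : p ≠ q) :
    s2 (p * q) = (1 + p ^ 2) * (1 + q ^ 2) := by
  have h1 := ArithmeticFunction.isMultiplicative_sigma (k := 2) |>.map_mul_of_coprime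
    ((Nat.coprime_primes hp hq).2 h)
  rw [ArithmeticFunction.sigma_apply, ArithmeticFunction.sigma_apply,
    ArithmeticFunction.sigma_apply] at h1
  rw [← s2_prime hp, ← s2_prime hq]
  exact h1

lemma s2_sq {p : ℕ} (hp : p.Prime) : s2 (p * p) = 1 + p ^ 2 + (p * p) ^ 2 := by
  unfold s2
  rw [← pow_two, Nat.divisors_prime_pow hp, Finset.sum_map, Finset.sum_range_succ,
    Finset.sum_range_succ, Finset.sum_range_one]
  simp

lemma odd_sq {x : ℕ} (h : x % 2 = 1) : x ^ 2 % 8 = 1 := by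
  have h1 : x % 8 = 1 ∨ x % 8 = 3 ∨ x % 8 = 5 ∨ x % 8 = 7 := by omega
  rw [Nat.pow_mod]
  rcases h1 with h1 | h1 | h1 | h1 <;> rw [h1]

theorem main {n : ℕ} (hn : 0 < n) (hq : (n + 2).Prime) : s2 n ≠ s2 (n + 2) := by
  intro e
  rw [s2_prime hq] at e
  have hodd : n % 2 = 1 := by
    rcases hq.eq_two_or_odd with h | h <;> omega
  rcases Nat.lt_or_ge n 2 with h2 | h2
  · obtain rfl : n = 1 := by omega
    revert e
    decide
  by_cases hp : n.Prime
  · rw [s2_prime hp] at e
    nlinarith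
  set p := n.minFac with hpdef
  have pp : p.Prime := Nat.minFac_prime (by omega)
  obtain ⟨k, hk⟩ := Nat.minFac_dvd n
  rw [← hpdef] at hk
  have hk1 : 1 < k := by
    rcases Nat.lt_or_ge 1 k with h | h
    · exact h
    · exfalso
      interval_cases k
      · omega
      · rw [mul_one] at hk
        exact hp (hk ▸ pp)
  have pmin : ∀ d, 1 < d → d ∣ k → p ≤ d := fun d h1 h3 =>
    Nat.minFac_le_of_dvd h1 (h3.trans (hk ▸ dvd_mul_left k p))
  have hpk : p ≤ k := pmin k hk1 dvd_rfl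
  have podd : p % 2 = 1 := by
    rcases Nat.mod_two_eq_zero_or_one p with h | h
    · rw [hk, Nat.mul_mod, h] at hodd; simp at hodd
    · exact h
  have kodd : k % 2 = 1 := by
    rcases Nat.mod_two_eq_zero_or_one k with h | h
    · rw [hk, Nat.mul_mod, h] at hodd; simp at hodd
    · exact h
  have p3 : 3 ≤ p := by have := pp.two_le; omega
  rcases hpk.eq_or_lt with hpk | hpk
  · rw [hk, ← hpk, s2_sq pp] at e
    nlinarith
  have h4 := s2_ge4 pp.two_le hpk
  rw [← hk, e] at h4
  have h5 : p ^ 2 + k ^ 2 ≤ 4 * (p * k) + 4 := by rw [← hk]; nlinarith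
  have h6 : k < 4 * p := by
    by_contra hc
    push Not at hc
    nlinarith
  by_cases hkp : k.Prime
  · rw [hk, s2_two pp hkp hpk.ne] at e
    have h7 : p ^ 2 + k ^ 2 = 4 * (p * k) + 4 := by nlinarith
    have h8 := odd_sq podd
    have h9 := odd_sq kodd
    have h10 : (p * k) % 2 = 1 := by rw [← hk]; exact hodd
    omega
  · -- `k` is composite
    obtain ⟨j, hj⟩ := Nat.minFac_dvd k
    have q1 : 1 < k.minFac := (Nat.minFac_prime (by omega)).one_lt
    have h11 : p ≤ k.minFac := pmin _ q1 (Nat.minFac_dvd k)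
    have h12 : k.minFac ^ 2 ≤ k := Nat.minFac_sq_le_self (by omega) hkp
    have h13 : p ^ 2 ≤ k := (Nat.pow_le_pow_left h11 2).trans h12
    have h14 : p < 4 := by nlinarith
    obtain h15 : p = 3 := by omega
    rw [h15] at h13 h6 hk
    have h16 : k = 9 ∨ k = 11 := by omega
    rcases h16 with rfl | rfl
    · rw [hk] at e
      revert e
      decide
    · exact hkp (by norm_num)

theorem result : ∀ n : ℕ, 0 < n → (n.Prime ∨ (n + 2).Prime) → s2 n ≠ s2 (n + 2) := by
  rintro n hn (h | h)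
  · intro e
    have h1 := s2_ge (n := n + 2) (by omega)
    rw [← e, s2_prime h] at h1
    nlinarith
  · exact main hn h

end Pool.Agent.Results.MP_cb3c8e_nt.PrimeMember
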